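import Pool.Agent.H343.QF.StS

set_option autoImplicit false
set_option linter.unusedSectionVars false

/-! # Project QF of helper343 (MP_9a852a_al), part S3: quotient of a quotient -/

namespace Pool.Agent.H719.QF

open Pool.Agent.TH68 Pool.Agent.Helper97.Hyp Pool.Agent.H343.AN Pool.Agent.H343.QF

section equiv

variable {G H : Type} [Group G] [Group H]

/-- the pulled back norm -/
def trn (W : WNorm G) (e : H ≃* G) : WNorm H where
  ℓ h := W.ℓ (e h)
  one' := by rw [map_one, W.one']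
  eq_one g hg := by
    have := W.eq_one _ hg
    rwa [map_eq_one_iff e e.injective] at this
  inv' g := by rw [map_inv, W.inv']
  mul_le g h := by rw [map_mul]; exact W.mul_le _ _
  geod g k hk := by
    obtain ⟨a, b, hab, ha, hb⟩ := W.geod _ k hk
    refine ⟨e.symm a, e.symm b, ?_, ?_, ?_⟩
    · apply e.injective
      rw [map_mul, e.apply_symm_apply, e.apply_symm_apply, hab]
    · rw [e.apply_symm_apply, ha]
    · rw [e.apply_symm_apply, hb]
  fin r := by
    have := W.fin r
    exact this.preimage (f := e) e.injective.injOn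

variable {W : WNorm G} {V : WNorm H} {e : H ≃* G}

/-- the isometry -/
def tf (W : WNorm G) (e : H ≃* G) {V : WNorm H} (a : Pt V) : Pt W := pt W (e a.out)

lemma tf_dist (he : ∀ h, W.ℓ (e h) = V.ℓ h) (a b : Pt V) :
    dist (tf W e a) (tf W e b) = dist a b := by
  unfold tf
  rw [dist_def, dist_def, out_pt, out_pt, ← he, map_mul, map_inv]

lemma tf_surj (x : Pt W) : ∃ y : Pt V, tf W e y = x := ⟨pt V (e.symm x.out), by
  unfold tf
  rw [out_pt, e.apply_symm_apply, pt_out]⟩

lemma ghyp_of (he : ∀ h, W.ℓ (e h) = V.ℓ h) {δ : ℝ} (h : GHyp (Pt V) δ) : GHyp (Pt W) δ := by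
  intro x y z w
  obtain ⟨x, rfl⟩ := tf_surj (V := V) (e := e) x
  obtain ⟨y, rfl⟩ := tf_surj (V := V) (e := e) y
  obtain ⟨z, rfl⟩ := tf_surj (V := V) (e := e) z
  obtain ⟨w, rfl⟩ := tf_surj (V := V) (e := e) w
  simp only [tf_dist he]
  exact h x y z w

lemma tf_mem_Ln {a : H} {u : H} {x : Pt V} : tf W e x ∈ Ln W (e a) (e u) ↔ x ∈ Ln V a u := by
  constructor
  · rintro ⟨k, hk⟩
    refine ⟨k, ?_⟩
    have h1 : e x.out = e u * e a ^ k := hk
    rw [← map_zpow, ← map_mul] at h1
    exact e.injective h1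
  · rintro ⟨k, rfl⟩
    refine ⟨k, ?_⟩
    unfold tf
    rw [out_pt, map_mul, map_zpow]

lemma good_of (he : ∀ h, W.ℓ (e h) = V.ℓ h) {a b : H} {δ D : ℝ} (h : Good V a b δ D) :
    Good W (e a) (e b) δ D where
  hyp := ghyp_of he h.hyp
  one := h.one
  le := h.le
  gen g hg := by
    obtain ⟨g, rfl⟩ := e.surjective g
    rw [he] at hg
    rw [← map_inv, ← map_inv]
    simpa only [e.injective.eq_iff] using h.gen g hg
  pow k := by rw [← map_zpow, he]; exact h.pow k
  lb := by rw [he]; exact h.lb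
  tf g n hn hg := by
    obtain ⟨g, rfl⟩ := e.surjective g
    rw [← map_pow, map_eq_one_iff e e.injective] at hg
    rw [h.tf g n hn hg, map_one]
  mal u hu p hp q hq := by
    obtain ⟨u, rfl⟩ := e.surjective u
    obtain ⟨p, rfl⟩ := tf_surj (V := V) (e := e) p
    obtain ⟨q, rfl⟩ := tf_surj (V := V) (e := e) q
    rw [tf_mem_Ln] at hp hq
    have hu' : u ∉ Subgroup.zpowers a := by
      intro h1
      apply hu
      obtain ⟨k, rfl⟩ := h1
      exact ⟨k, by simp⟩
    have h1 := h.mal u hu' p hp q hq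
    refine le_trans ?_ h1
    have hne : (Ln W (e a) 1).Nonempty := ⟨pt W 1, 0, by simp⟩
    apply pd_le hne
    intro s hs t ht
    obtain ⟨s, rfl⟩ := tf_surj (V := V) (e := e) s
    obtain ⟨t, rfl⟩ := tf_surj (V := V) (e := e) t
    rw [← map_one e, tf_mem_Ln] at hs ht
    simp only [tf_dist he]
    exact le_pd hs ht
  dc i j k l hi hj hij := by
    rw [← map_zpow, ← map_zpow, ← map_zpow, ← map_zpow, ← map_mul, ← map_mul]
    intro h1
    exact h.dc i j k l hi hj hij (e.injective h1)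

end equiv

theorem tr : S_tr := by
  intro F _ W a b K K' _ _ _ hK V V' hV hV'
  let e : (F ⧸ K) ⧸ K'.map (QuotientGroup.mk' K) ≃* F ⧸ K' :=
    QuotientGroup.quotientQuotientEquivQuotient K K' hK
  have he : ∀ x : F, e (((x : F ⧸ K) : (F ⧸ K) ⧸ K'.map (QuotientGroup.mk' K))) = (x : F ⧸ K') :=
    fun x => rfl
  refine ⟨trn V' e, ⟨?_, ?_⟩, ?_⟩
  · intro v
    obtain ⟨f, rfl⟩ := QuotientGroup.mk_surjective v
    change V'.ℓ (e _) ≤ _
    rw [he]
    obtain ⟨n, hn, h1⟩ := hV.ex f
    have h2 := hV'.le (f * n)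
    rw [h1] at h2
    have h3 : ((f * n : F) : F ⧸ K') = (f : F ⧸ K') := by
      rw [eq_comm, QuotientGroup.eq]
      simpa using hK hn
    rwa [h3] at h2
  · intro v
    obtain ⟨f, rfl⟩ := QuotientGroup.mk_surjective v
    change ∃ n ∈ _, _ = V'.ℓ (e _)
    rw [he]
    obtain ⟨n, hn, h1⟩ := hV'.ex f
    refine ⟨(n : F ⧸ K), ⟨n, hn, rfl⟩, ?_⟩
    apply le_antisymm
    · rw [← h1]
      exact hV.le (f * n)
    · obtain ⟨m, hm, h2⟩ := hV.ex (f * n)
      have h3 := hV'.le (f * n * m)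
      rw [h2] at h3
      have h4 : ((f * n * m : F) : F ⧸ K') = (f : F ⧸ K') := by
        rw [eq_comm, QuotientGroup.eq, mul_assoc, inv_mul_cancel_left]
        exact mul_mem hn (hK hm)
      rwa [h4] at h3
  · intro δ D h
    exact good_of (W := V') (V := trn V' e) (e := e) (fun _ => rfl) h

end Pool.Agent.H719.QF

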